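import Mathlib
import Pool.Agent.KS6_82.KTn.Main

/-!
# Klt varieties deform to varieties with arbitrarily negative discrepancies

Let `A` be the section ring of `O (4, 1)` on `P^1 × P^1`, with affine coordinates `x`, `y` and the
section `z`, and `h = z (x ^ 4 - y)`. The family is `A [T, t] / (h - t T ^ n)` over the affine line
with coordinate `t`. For all `n` the fibre over `0` is the product of a line and the cone over the
rational normal curve of degree `8`, a klt threefold whose canonical divisor is `ℚ`-Cartier of index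
`4`. All other fibres are isomorphic to the cyclic cover of order `n` of the cone over `P^1 × P^1`
branched along the cone over that curve. The exceptional divisor `v` of the (weighted) blow-up of its
vertex satisfies `a (v, X, B) ≤ - n / 2` for all effective `B` with `K_X + B` an `ℝ`-Cartier divisor
at the vertex.
-/

set_option autoImplicit false

namespace Pool.Agent.Results.MP_ce0b4e_ag.UnboundedDiscrepancies

open Pool.Agent.H436R3.Fol Pool.Agent.H436R3.KT Pool.Agent.KS6_82.KTn

variable {K : Type} [Field K] [Algebra ℂ K]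

/-- `(X, B)` is log canonical at the closed point `P`: `K_X + B` is `∑ ρ_i div (g_i)` near `P`, and
all prime divisors over `X` with centre through `P` have discrepancy at least `-1`. -/
def IsLcAt {X : AffVar K} (B : EffDiv X) (P : Pt X) : Prop :=
  ∃ (m : ℕ) (ρ : Fin m → ℝ) (g : Fin m → K), IsLocalEqAt B P ρ g ∧
    ∀ v, OverAt P v → ∃ a : ℤ, IsCanOrd X.T v a ∧ -1 ≤ (a : ℝ) - ∑ i, ρ i * (v.ord (g i) : ℝ)

/-- `X` is of log canonical type: `X` is normal, and `(X, B)` is log canonical for some effective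
`ℝ`-divisor `B`. -/
def IsLcType (X : AffVar K) : Prop := IsNormal X ∧ ∃ B : EffDiv X, ∀ P : Pt X, IsLcAt B P

/-- `X` is klt: `X` is normal, and `(X, 0)` is klt. -/
def IsKlt (X : AffVar K) : Prop :=
  IsNormal X ∧ ∃ B : EffDiv X, B.n = 0 ∧ ∀ P : Pt X, IsKltAt B P

/-- There is a klt affine threefold `X₀` such that for all real numbers `N` there are a normal affine
threefold `X₁` and a flat family over the affine line, with a section, such that the fibre over `0`
is `X₀`, all other fibres are `X₁`, and the following holds at the point `P` of the section for every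
`c ≠ 0`: there is one prime divisor `v` over the fibre, with centre through `P`, whose discrepancy is
at most `-N` for all effective `ℝ`-divisors `B` such that `K + B` is `ℝ`-Cartier at `P`. The fibres
over `c ≠ 0` are not of klt type, and not even of log canonical type. -/
theorem result : ∃ (K : Type) (_ : Field K) (_ : Algebra ℂ K) (X₀ : AffVar K),
    X₀.d = 3 ∧ IsKlt X₀ ∧ ∀ N : ℝ, ∃ (X₁ : AffVar K) (F : FlatFamily K) (s : Sec F),
      X₁.d = 3 ∧ IsNormal X₁ ∧ F.X 0 = X₀ ∧ (∀ c : ℂ, c ≠ 0 → F.X c = X₁) ∧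
      ∀ c : ℂ, c ≠ 0 → ¬ IsKltType (F.X c) ∧ ¬ IsLcType (F.X c) ∧
        ∃ P : Pt (F.X c), s.At c P ∧ (∀ B : EffDiv (F.X c), ¬ IsLcAt B P) ∧
          ∃ v : DVal K, OverAt P v ∧ IsCanOrd (F.X c).T v (-1) ∧
            ∀ (B : EffDiv (F.X c)) (m : ℕ) (ρ : Fin m → ℝ) (g : Fin m → K),
              IsLocalEqAt B P ρ g → -1 - ∑ i, ρ i * (v.ord (g i) : ℝ) ≤ -N := by
  refine ⟨K3, inferInstance, inferInstance, X0, rfl, ⟨R0_normal, B0, rfl, klt0⟩, fun N => ?_⟩
  obtain ⟨k, hk⟩ := exists_nat_ge (2 * N)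
  set n := k + 3 with hn
  have hN : N ≤ (n : ℝ) / 2 := by
    rw [hn]
    push_cast
    linarith
  have hn3 : (3 : ℝ) ≤ n := by
    rw [hn]
    push_cast
    linarith [Nat.cast_nonneg (α := ℝ) k]
  refine ⟨X1 n, family n, sect n, rfl, R1_normal, XF_zero, fun c hc => XF_ne hc, fun c hc => ?_⟩
  obtain ⟨P, hP, v, hv, hcan, hbad⟩ := sect_bad (n := n) hc
  have hlc : ∀ B : EffDiv ((family n).X c), ¬ IsLcAt B P := by
    rintro B ⟨m, ρ, g, h1, h2⟩
    obtain ⟨a, ha, ha'⟩ := h2 v hv
    have h3 : a = -1 := le_antisymm (ha.2 hcan.1) (hcan.2 ha.1)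
    have h4 := hbad B m ρ g h1
    rw [h3] at ha'
    push_cast at ha'
    linarith
  have hklt : ∀ B : EffDiv ((family n).X c), ¬ IsKltAt B P := by
    rintro B ⟨m, ρ, g, h1, h2, h3⟩
    refine hlc B ⟨m, ρ, g, ⟨h1, h2⟩, fun w hw => ?_⟩
    obtain ⟨a, ha, ha'⟩ := h3 w hw
    exact ⟨a, ha, ha'.le⟩
  refine ⟨fun ⟨_, B, hB⟩ => hklt B (hB P), fun ⟨_, B, hB⟩ => hlc B (hB P), P, hP, hlc, v, hv, hcan,
    fun B m ρ g h => ?_⟩
  have h4 := hbad B m ρ g h
  linarith

end Pool.Agent.Results.MP_ce0b4e_ag.UnboundedDiscrepancies
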